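import Pool.Agent.H52.V.S8.H323R2.Gen1

/-!
If the partial sums are almost constant mod `q`, the constant is a root of `f` mod `q`.
-/

set_option autoImplicit false

namespace Pool.Agent.H323R2.Gen

open Finset

section
variable {k : Type} [CommRing k]

open Classical in
/-- number of nonzero coefficients with index at most `N` -/
noncomputable def pc (N : ℕ) (F : PowerSeries k) : ℕ :=
  ((range (N + 1)).filter (fun n => PowerSeries.coeff n F ≠ 0)).card

lemma pc_add_le (N : ℕ) (F G : PowerSeries k) : pc N (F + G) ≤ pc N F + pc N G := by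
  classical
  unfold pc
  refine le_trans (Finset.card_le_card ?_) (Finset.card_union_le _ _)
  intro n hn
  rw [Finset.mem_filter] at hn
  rw [Finset.mem_union, Finset.mem_filter, Finset.mem_filter]
  by_cases h : PowerSeries.coeff n F = 0
  · right
    refine ⟨hn.1, fun h2 => hn.2 ?_⟩
    rw [map_add, h, h2, add_zero]
  · exact Or.inl ⟨hn.1, h⟩

lemma pc_mul_le (N : ℕ) (F G : PowerSeries k) : pc N (F * G) ≤ pc N F * pc N G := by
  classical
  unfold pc
  rw [← Finset.card_product]
  refine le_trans (Finset.card_le_card ?_) (Finset.card_image_le (f := fun x : ℕ × ℕ => x.1 + x.2))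
  intro n hn
  rw [Finset.mem_filter, Finset.mem_range] at hn
  rw [PowerSeries.coeff_mul] at hn
  obtain ⟨x, hx, hx2⟩ := Finset.exists_ne_zero_of_sum_ne_zero hn.2
  rw [Finset.HasAntidiagonal.mem_antidiagonal] at hx
  rw [Finset.mem_image]
  refine ⟨x, ?_, hx⟩
  rw [Finset.mem_product, Finset.mem_filter, Finset.mem_filter, Finset.mem_range, Finset.mem_range]
  refine ⟨⟨by omega, fun h => hx2 (by rw [h, zero_mul])⟩, by omega, fun h => hx2 (by rw [h, mul_zero])⟩

lemma pc_C_le (N : ℕ) (a : k) : pc N (PowerSeries.C a) ≤ 1 := by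
  classical
  unfold pc
  refine le_trans (Finset.card_le_card (t := {0}) ?_) (by simp)
  intro n hn
  rw [Finset.mem_filter] at hn
  rw [Finset.mem_singleton]
  by_contra h
  apply hn.2
  rw [PowerSeries.coeff_C, if_neg h]

lemma pc_X_le (N : ℕ) : pc N (PowerSeries.X : PowerSeries k) ≤ 1 := by
  classical
  unfold pc
  refine le_trans (Finset.card_le_card (t := {1}) ?_) (by simp)
  intro n hn
  rw [Finset.mem_filter] at hn
  rw [Finset.mem_singleton]
  by_contra h
  apply hn.2
  rw [PowerSeries.coeff_X, if_neg h]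

lemma pc_pow_le (N : ℕ) (F : PowerSeries k) (i : ℕ) : pc N (F ^ i) ≤ (1 + pc N F) ^ i := by
  induction i with
  | zero =>
    rw [pow_zero, pow_zero, ← map_one (PowerSeries.C (R := k))]
    exact pc_C_le N 1
  | succ i ih =>
    rw [pow_succ, pow_succ]
    exact (pc_mul_le N _ _).trans (Nat.mul_le_mul ih (by omega))

lemma pc_sum_le {ι : Type} (N : ℕ) (s : Finset ι) (F : ι → PowerSeries k) :
    pc N (∑ i ∈ s, F i) ≤ ∑ i ∈ s, pc N (F i) := by
  classical
  induction s using Finset.induction_on with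
  | empty => simp [pc]
  | insert a s ha ih =>
    rw [Finset.sum_insert ha, Finset.sum_insert ha]
    exact (pc_add_le N _ _).trans (by omega)

lemma pc_aeval_le (N : ℕ) (F : PowerSeries k) (h : Polynomial k) (d : ℕ) (hd : h.natDegree ≤ d) :
    pc N (Polynomial.aeval F h) ≤ (d + 1) * (1 + pc N F) ^ d := by
  rw [Polynomial.aeval_eq_sum_range' (n := d + 1) (by omega)]
  refine (pc_sum_le N _ _).trans ?_
  calc ∑ i ∈ range (d + 1), pc N (h.coeff i • F ^ i) ≤ ∑ i ∈ range (d + 1), (1 + pc N F) ^ d := by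
        apply Finset.sum_le_sum
        intro i hi
        rw [Finset.mem_range] at hi
        rw [PowerSeries.smul_eq_C_mul]
        calc pc N (PowerSeries.C (h.coeff i) * F ^ i) ≤ pc N (PowerSeries.C (h.coeff i)) *
              pc N (F ^ i) := pc_mul_le N _ _
          _ ≤ 1 * (1 + pc N F) ^ i := Nat.mul_le_mul (pc_C_le N _) (pc_pow_le N F i)
          _ = (1 + pc N F) ^ i := one_mul _
          _ ≤ (1 + pc N F) ^ d := Nat.pow_le_pow_right (by omega) (by omega)
    _ = _ := by simp

lemma sum_coeff (F : PowerSeries k) (R : ℕ) :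
    ∑ n ∈ range (R + 1), PowerSeries.coeff n F =
      PowerSeries.coeff R (F * PowerSeries.mk (1 : ℕ → k)) := by
  rw [PowerSeries.coeff_mul, Finset.Nat.sum_antidiagonal_eq_sum_range_succ
    (fun i j => PowerSeries.coeff i F * PowerSeries.coeff j (PowerSeries.mk (1 : ℕ → k)))]
  apply Finset.sum_congr rfl
  intro n _
  simp

theorem eval_zero_of_const (f : Polynomial k) (d : ℕ) (hd : f.natDegree ≤ d)
    (F : PowerSeries k) (a : k) (N : ℕ) (B E : Finset ℕ)
    (hB : ∀ R ≤ N, ∑ n ∈ range (R + 1), PowerSeries.coeff n F ≠ a → R ∈ B)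
    (hE : ∀ R ≤ N, R ∉ E → ∑ n ∈ range (R + 1), PowerSeries.coeff n (Polynomial.aeval F f) = 0)
    (hcount : E.card + (d + 1) * (2 + 2 * B.card) ^ (d + 1) < N + 1) : f.eval a = 0 := by
  classical
  by_contra hne
  set D : PowerSeries k := PowerSeries.mk (fun R => ∑ n ∈ range (R + 1), PowerSeries.coeff n F - a)
    with hD
  have hone : PowerSeries.mk (1 : ℕ → k) * (1 - PowerSeries.X) = 1 :=
    PowerSeries.mk_one_mul_one_sub_eq_one k
  have hD2 : D = (F - PowerSeries.C a) * PowerSeries.mk (1 : ℕ → k) := by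
    ext R
    rw [← sum_coeff]
    simp only [hD, PowerSeries.coeff_mk, map_sub]
    rw [Finset.sum_sub_distrib]
    congr 1
    rw [Finset.sum_eq_single 0]
    · simp
    · intro n _ hn
      rw [PowerSeries.coeff_C, if_neg hn]
    · intro hn; exact absurd (Finset.mem_range.2 (Nat.succ_pos _)) hn
  have hF : F = PowerSeries.C a + (1 - PowerSeries.X) * D := by
    rw [hD2]
    linear_combination (-(F - PowerSeries.C a)) * hone
  have hpD : pc N D ≤ B.card := by
    unfold pc
    apply Finset.card_le_card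
    intro R hR
    rw [Finset.mem_filter, Finset.mem_range] at hR
    apply hB R (by omega)
    intro h
    apply hR.2
    rw [hD, PowerSeries.coeff_mk, h, sub_self]
  have hp1X : pc N ((1 : PowerSeries k) - PowerSeries.X) ≤ 2 := by
    have e : (1 : PowerSeries k) - PowerSeries.X =
        PowerSeries.C 1 + PowerSeries.C (-1) * PowerSeries.X := by simp [sub_eq_add_neg]
    rw [e]
    have h1 := pc_add_le N (PowerSeries.C (1 : k)) (PowerSeries.C (-1) * PowerSeries.X)
    have h2 := pc_mul_le N (PowerSeries.C (-1 : k)) PowerSeries.X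
    have h3 := pc_C_le N (1 : k)
    have h4 := pc_C_le N (-1 : k)
    have h5 := pc_X_le (k := k) N
    have h6 := Nat.mul_le_mul h4 h5
    omega
  have hpF : pc N F ≤ 1 + 2 * B.card := by
    rw [hF]
    have h1 := pc_add_le N (PowerSeries.C a) ((1 - PowerSeries.X) * D)
    have h2 := pc_mul_le N (1 - PowerSeries.X) D
    have h3 := pc_C_le N a
    have h4 := Nat.mul_le_mul hp1X hpD
    omega
  obtain ⟨h, hh⟩ : (Polynomial.X - Polynomial.C a) ∣ f - Polynomial.C (f.eval a) :=
    Polynomial.X_sub_C_dvd_sub_C_eval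
  have hf : f = Polynomial.C (f.eval a) + (Polynomial.X - Polynomial.C a) * h := by
    rw [← hh]; ring
  have hhd : h.natDegree ≤ d := by
    by_cases h0 : h = 0
    · rw [h0]; simp
    · nontriviality k
      have h1 : ((Polynomial.X - Polynomial.C a) * h).natDegree = 1 + h.natDegree := by
        rw [(Polynomial.monic_X_sub_C a).natDegree_mul' h0, Polynomial.natDegree_X_sub_C]
      have h2 : ((Polynomial.X - Polynomial.C a) * h).natDegree ≤ d := by
        rw [← hh]
        refine (Polynomial.natDegree_sub_le _ _).trans (max_le hd ?_)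
        rw [Polynomial.natDegree_C]; omega
      omega
  set G : PowerSeries k := D * Polynomial.aeval F h with hG
  have hAe : Polynomial.aeval F f = PowerSeries.C (f.eval a) + (1 - PowerSeries.X) * G := by
    conv_lhs => rw [hf]
    rw [map_add, map_mul, map_sub, Polynomial.aeval_X, Polynomial.aeval_C, Polynomial.aeval_C]
    have e1 : ∀ x : k, algebraMap k (PowerSeries k) x = PowerSeries.C x := fun x => rfl
    rw [e1, e1, hG]
    have e2 : F - PowerSeries.C a = (1 - PowerSeries.X) * D := by
      linear_combination hF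
    rw [e2]; ring
  have hpG : pc N G ≤ (d + 1) * (2 + 2 * B.card) ^ (d + 1) := by
    calc pc N G ≤ pc N D * pc N (Polynomial.aeval F h) := pc_mul_le N _ _
      _ ≤ B.card * ((d + 1) * (1 + pc N F) ^ d) := Nat.mul_le_mul hpD (pc_aeval_le N F h d hhd)
      _ ≤ (2 + 2 * B.card) * ((d + 1) * (2 + 2 * B.card) ^ d) := by
          apply Nat.mul_le_mul (by omega)
          apply Nat.mul_le_mul le_rfl
          exact Nat.pow_le_pow_left (by omega) _
      _ = _ := by rw [pow_succ]; ring
  have hsub : range (N + 1) ⊆ E ∪ (range (N + 1)).filter (fun n => PowerSeries.coeff n G ≠ 0) := by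
    intro R hR
    rw [Finset.mem_union]
    by_cases hRE : R ∈ E
    · exact Or.inl hRE
    · right
      rw [Finset.mem_filter]
      refine ⟨hR, fun h0 => hne ?_⟩
      rw [Finset.mem_range] at hR
      have h1 := hE R (by omega) hRE
      rw [sum_coeff, hAe, add_mul, map_add] at h1
      have e1 : (1 - PowerSeries.X) * G * PowerSeries.mk (1 : ℕ → k) = G := by
        linear_combination G * hone
      rw [e1, h0, add_zero, ← sum_coeff, Finset.sum_eq_single 0] at h1
      · simpa using h1
      · intro n _ hn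
        rw [PowerSeries.coeff_C, if_neg hn]
      · intro hn; exact absurd (Finset.mem_range.2 (Nat.succ_pos _)) hn
  have h1 := (Finset.card_le_card hsub).trans (Finset.card_union_le _ _)
  rw [Finset.card_range] at h1
  have h2 : ((range (N + 1)).filter (fun n => PowerSeries.coeff n G ≠ 0)).card = pc N G := by
    unfold pc
    congr!
  omega

end

open Polynomial in
/-- the ring homomorphism `G ↦ G(z/b)` mod `q` -/
noncomputable def Th (b q : ℕ) : ℤ[X] →+* PowerSeries (ZMod q) :=
  (PowerSeries.rescale ((b : ZMod q)⁻¹)).comp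
    ((Polynomial.coeToPowerSeries.ringHom).comp (Polynomial.mapRingHom (Int.castRingHom (ZMod q))))

open Polynomial in
lemma coeff_Th (b q : ℕ) (G : ℤ[X]) (n : ℕ) :
    PowerSeries.coeff n (Th b q G) = ((G.coeff n : ℤ) : ZMod q) * ((b : ZMod q)⁻¹) ^ n := by
  simp only [Th, RingHom.comp_apply, PowerSeries.coeff_rescale, Polynomial.coeToPowerSeries.ringHom_apply,
    Polynomial.coeff_coe, Polynomial.coe_mapRingHom, Polynomial.coeff_map]
  rw [mul_comm]; rfl

open Polynomial in
lemma S_eq_sum_Th (b q : ℕ) [Fact q.Prime] (hb : (b : ZMod q) ≠ 0) (G : ℤ[X]) (R : ℕ) :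
    ((Pool.Agent.H393R2.DC.S b G R : ℤ) : ZMod q) * ((b : ZMod q)⁻¹) ^ R =
      ∑ n ∈ range (R + 1), PowerSeries.coeff n (Th b q G) := by
  unfold Pool.Agent.H393R2.DC.S
  push_cast
  rw [Finset.sum_mul]
  apply Finset.sum_congr rfl
  intro n hn
  rw [Finset.mem_range] at hn
  rw [coeff_Th]
  have e : ((b : ZMod q)⁻¹) ^ R = ((b : ZMod q)⁻¹) ^ (R - n) * ((b : ZMod q)⁻¹) ^ n := by
    rw [← pow_add]; congr 1; omega
  rw [e]
  have hbb : (b : ZMod q) ^ (R - n) * ((b : ZMod q)⁻¹) ^ (R - n) = 1 := by
    rw [← mul_pow, mul_inv_cancel₀ hb, one_pow]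
  linear_combination ((G.coeff n : ℤ) : ZMod q) * ((b : ZMod q)⁻¹) ^ n * hbb

open Polynomial in
lemma Th_comp (b q : ℕ) (f P : ℤ[X]) :
    Th b q (f.comp P) = Polynomial.aeval (Th b q P) (f.map (Int.castRingHom (ZMod q))) := by
  rw [Polynomial.comp, Polynomial.hom_eval₂, Polynomial.aeval_def, Polynomial.eval₂_map]
  congr 1
  exact RingHom.ext_int _ _

open Polynomial in
/-- if the first component is almost constant, the constant is a root -/
theorem root_of_const (b q : ℕ) [Fact q.Prime] (hb : (b : ZMod q) ≠ 0) (f P : ℤ[X]) (d : ℕ)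
    (hd : f.natDegree ≤ d) (a : ZMod q) (N : ℕ) (B E : Finset ℕ)
    (hB : ∀ R ≤ N, vv b P q 1 R ≠ a → R ∈ B)
    (hE : ∀ R ≤ N, R ∉ E → Pool.Agent.H393R2.DC.S b (f.comp P) R = 0)
    (hcount : E.card + (d + 1) * (2 + 2 * B.card) ^ (d + 1) < N + 1) :
    (f.map (Int.castRingHom (ZMod q))).eval a = 0 := by
  refine eval_zero_of_const (f.map (Int.castRingHom (ZMod q))) d
    (Polynomial.natDegree_map_le.trans hd) (Th b q P) a N B E ?_ ?_ hcount
  · intro R hR h
    apply hB R hR
    unfold vv
    rw [pow_one, S_eq_sum_Th b q hb]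
    exact h
  · intro R hR h
    rw [← Th_comp, ← S_eq_sum_Th b q hb, hE R hR h]
    simp

end Pool.Agent.H323R2.Gen
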