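import Pool.Agent.H52.V.S8.H323R2.Gen3

/-!
Among any `d` consecutive scales there is a jump.
-/

set_option autoImplicit false

namespace Pool.Agent.H323R2.Gen

open Finset
open Pool.Agent.H393R2.DC (UU mem_UU compl_card change)

/-- two neighbouring good points with different values -/
lemma adjacent {α : Type} (q K N : ℕ) (hq : 2 ≤ q) (E : Finset ℕ) (g : ℕ → α) (w1 w : ℕ)
    (hw1U : w1 ∈ UU q K E N) (hwU : w ∈ UU q K E N) (hle : w1 ≤ w) (hne : g w ≠ g w1) :
    ∃ u ∈ UU q K E N, ∃ v ∈ UU q K E N, w1 ≤ u ∧ u < v ∧ v - u ≤ E.card * q ^ K + 1 ∧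
      g u ≠ g v := by
  classical
  have hwN : w ≤ N := (mem_UU.1 hwU).1
  set T := (UU q K E N).filter (fun x => w1 ≤ x ∧ x ≤ w) with hT
  set T' := T.filter (fun x => g x ≠ g w1) with hT'
  have hT'ne : T'.Nonempty := ⟨w, by
    rw [hT', hT, Finset.mem_filter, Finset.mem_filter]
    exact ⟨⟨hwU, hle, le_rfl⟩, hne⟩⟩
  set v := T'.min' hT'ne with hv
  have hvT' : v ∈ T' := Finset.min'_mem _ _
  have hvmin : ∀ x ∈ T', v ≤ x := fun x hx => Finset.min'_le _ _ hx
  have hvT : v ∈ T := (Finset.mem_filter.1 hvT').1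
  have hsv : g v ≠ g w1 := (Finset.mem_filter.1 hvT').2
  have hvb : w1 ≤ v ∧ v ≤ w := (Finset.mem_filter.1 hvT).2
  have hw1v : w1 < v := lt_of_le_of_ne hvb.1 (fun h => hsv (by rw [← h]))
  set T'' := T.filter (fun x => x < v) with hT''
  have hT''ne : T''.Nonempty := ⟨w1, by
    rw [hT'', hT, Finset.mem_filter, Finset.mem_filter]
    exact ⟨⟨hw1U, le_rfl, hle⟩, hw1v⟩⟩
  set u := T''.max' hT''ne with hu
  have huT'' : u ∈ T'' := Finset.max'_mem _ _
  have humax : ∀ x ∈ T'', x ≤ u := fun x hx => Finset.le_max' _ _ hx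
  have huT : u ∈ T := (Finset.mem_filter.1 huT'').1
  have huv : u < v := (Finset.mem_filter.1 huT'').2
  have hub : w1 ≤ u ∧ u ≤ w := (Finset.mem_filter.1 huT).2
  have hsu : g u = g w1 := by
    by_contra hcon
    have : v ≤ u := hvmin u (Finset.mem_filter.2 ⟨huT, hcon⟩)
    omega
  have hsuv : g u ≠ g v := by rw [hsu]; exact hsv.symm
  have hgap : v - u ≤ E.card * q ^ K + 1 := by
    have h1 : Ioo u v ⊆ (range (N + 1)).filter (fun x => x ∉ UU q K E N) := by
      intro x hx
      rw [Finset.mem_Ioo] at hx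
      rw [Finset.mem_filter, Finset.mem_range]
      refine ⟨by omega, fun hxU => ?_⟩
      have hxT : x ∈ T := by
        rw [hT, Finset.mem_filter]
        exact ⟨hxU, by omega, by omega⟩
      have := humax x (Finset.mem_filter.2 ⟨hxT, hx.2⟩)
      omega
    have h2 := (Finset.card_le_card h1).trans (compl_card (by omega) K E N)
    rw [Nat.card_Ioo] at h2
    omega
  exact ⟨u, (Finset.mem_filter.1 huT).1, v, (Finset.mem_filter.1 hvT).1, hub.1, huv, hgap, hsuv⟩

/-- Krylov: the first `d` iterates determine all -/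
lemma krylov {k : Type} [Field k] (d : ℕ) (M : Matrix (Fin d) (Fin d) k) (x : Fin d → k)
    (i1 : Fin d) (h : ∀ i < d, (M ^ i).mulVec x i1 = 0) (n : ℕ) : (M ^ n).mulVec x i1 = 0 := by
  classical
  have hd : 0 < d := lt_of_le_of_lt (Nat.zero_le _) i1.2
  rw [Matrix.pow_eq_aeval_mod_charpoly]
  have hne : M.charpoly ≠ 1 := by
    intro h1
    have h2 := Matrix.charpoly_natDegree_eq_dim M
    rw [h1, Polynomial.natDegree_one, Fintype.card_fin] at h2
    omega
  have hdeg : (Polynomial.X ^ n %ₘ M.charpoly).natDegree < d := by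
    have h1 := Polynomial.natDegree_modByMonic_lt (Polynomial.X ^ n) M.charpoly_monic hne
    rwa [Matrix.charpoly_natDegree_eq_dim, Fintype.card_fin] at h1
  rw [Polynomial.aeval_eq_sum_range' hdeg]
  have key : ∀ s : Finset ℕ, (∀ i ∈ s, i < d) →
      (∑ i ∈ s, (Polynomial.X ^ n %ₘ M.charpoly).coeff i • M ^ i).mulVec x i1 = 0 := by
    intro s
    induction s using Finset.induction_on with
    | empty => intro _; simp
    | insert a s ha ih =>
      intro hs
      rw [Finset.sum_insert ha, Matrix.add_mulVec, Pi.add_apply,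
        ih (fun i hi => hs i (Finset.mem_insert_of_mem hi)), Matrix.smul_mulVec, Pi.smul_apply,
        h a (hs a (Finset.mem_insert_self _ _))]
      simp
  exact key _ (fun i hi => Finset.mem_range.1 hi)

/-- iterating the dilation -/
lemma iter (q K N d : ℕ) (E : Finset ℕ) {k : Type} [Field k] (M : Matrix (Fin d) (Fin d) k)
    (v : ℕ → Fin d → k) (hdil : ∀ R ≤ N, R ∉ E → v (R / q) = M.mulVec (v R))
    (x : ℕ) (hx : x ∈ UU q K E N) (j : ℕ) (hj : j ≤ K) :
    v (x / q ^ j) = (M ^ j).mulVec (v x) := by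
  rw [mem_UU] at hx
  induction j with
  | zero => simp
  | succ j ih =>
    have h1 := ih (by omega)
    have h2 := hdil (x / q ^ j) ((Nat.div_le_self _ _).trans hx.1) (hx.2 j (by omega))
    rw [pow_succ, ← Nat.div_div_eq_div_mul, h2, h1, Matrix.mulVec_mulVec, pow_succ']

/-- among any `d` consecutive scales there is a failure -/
theorem chain (q K N d : ℕ) (hq : 2 ≤ q) (E : Finset ℕ) {k : Type} [Field k]
    (M : Matrix (Fin d) (Fin d) k)
    (v : ℕ → Fin d → k) (hdil : ∀ R ≤ N, R ∉ E → v (R / q) = M.mulVec (v R)) (i1 : Fin d)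
    (D : ℕ → Prop) (hD : ∀ j, ¬ D (j + 1) → v (j + 1) i1 = v j i1)
    (u w : ℕ) (hu : u ∈ UU q K E N) (hw : w ∈ UU q K E N) (huw : u < w)
    (hne : v (u / q ^ K) i1 ≠ v (w / q ^ K) i1) (a : ℕ) (ha : a + d ≤ K + 1) :
    ∃ j, a ≤ j ∧ j < a + d ∧ ∃ δ, D δ ∧ u < q ^ j * δ ∧ q ^ j * δ ≤ w := by
  by_contra hcon
  push Not at hcon
  apply hne
  have hd : 0 < d := lt_of_le_of_lt (Nat.zero_le _) i1.2
  -- equality at the scales `a, ..., a + d - 1`
  have heq : ∀ i < d, v (u / q ^ (a + i)) i1 = v (w / q ^ (a + i)) i1 := by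
    intro i hi
    by_contra h
    obtain ⟨δ, hδ, h1, h2⟩ := change (fun n => v n i1) D hD (u / q ^ (a + i)) (w / q ^ (a + i))
      (Nat.div_le_div_right huw.le) h
    have hqk : 0 < q ^ (a + i) := pow_pos (by omega) _
    have h3 := (Nat.div_lt_iff_lt_mul hqk).1 h1
    have h4 := (Nat.le_div_iff_mul_le hqk).1 h2
    have h5 := hcon (a + i) (by omega) (by omega) δ hδ (by rw [mul_comm]; exact h3)
    rw [mul_comm] at h5
    omega
  set x : Fin d → k := v (u / q ^ a) - v (w / q ^ a) with hx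
  have hit : ∀ i, a + i ≤ K → ((M ^ i).mulVec x) i1 =
      v (u / q ^ (a + i)) i1 - v (w / q ^ (a + i)) i1 := by
    intro i hi
    rw [hx, Matrix.mulVec_sub, Pi.sub_apply, iter q K N d E M v hdil u hu a (by omega),
      iter q K N d E M v hdil w hw a (by omega), iter q K N d E M v hdil u hu (a + i) hi,
      iter q K N d E M v hdil w hw (a + i) hi, Matrix.mulVec_mulVec, Matrix.mulVec_mulVec,
      ← pow_add, add_comm i a]
  have h0 := krylov d M x i1 (fun i hi => by
    rw [hit i (by omega), heq i hi, sub_self]) (K - a)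
  rw [hit (K - a) (by omega), show a + (K - a) = K by omega] at h0
  exact sub_eq_zero.1 h0

end Pool.Agent.H323R2.Gen
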