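import Pool.Agent.H52.V.S8.H323R2.Gen4

/-!
Starting pairs, and the count of the union of the chains of different primes (adapted from
helper393, Pool/Agent/H393R2/DC/Multi.lean: only one exponent in each block of `d0` consecutive
exponents is required).
-/

set_option autoImplicit false

namespace Pool.Agent.H323R2.Gen

open Finset
open Pool.Agent.H393R2.DC (union_bound expo_le pow_ne_pow_of_prime UU mem_UU compl_card)

/-- the main combinatorial count -/
theorem multi (QQ : Finset ℕ) (K H Y Q L d0 : ℕ) (Dn : Finset ℕ) (hprime : ∀ q ∈ QQ, q.Prime)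
    (hQ : ∀ q ∈ QQ, q ≤ Q) (hY : 2 * H * Q ^ K ≤ Y)
    (hch : ∀ q ∈ QQ, ∃ u, Y ≤ u ∧ ∀ j < L, ∃ k, (j * d0 ≤ k ∧ k < j * d0 + d0 ∧ k ≤ K) ∧
      ∃ δ ∈ Dn, u < q ^ k * δ ∧ q ^ k * δ ≤ u + H)
    (hr : QQ.card ≤ L) : QQ.card * L ≤ 2 * Dn.card := by
  classical
  rcases Finset.eq_empty_or_nonempty QQ with h0 | ⟨q0, hq0⟩
  · simp [h0]
  have hQ1 : 1 ≤ Q := (hprime q0 hq0).one_lt.le.trans (hQ q0 hq0)
  have hHY : 2 * H ≤ Y := by
    calc 2 * H = 2 * H * 1 := by ring
      _ ≤ 2 * H * Q ^ K := Nat.mul_le_mul_left _ (Nat.one_le_pow _ _ hQ1)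
      _ ≤ Y := hY
  choose! u hu κ hκ d hd using hch
  set C : ℕ → Finset ℕ := fun q => (range L).image (d q) with hC
  have hsub : QQ.biUnion C ⊆ Dn := by
    intro x hx
    rw [Finset.mem_biUnion] at hx
    obtain ⟨q, hq, hx⟩ := hx
    rw [hC, Finset.mem_image] at hx
    obtain ⟨k, hk, rfl⟩ := hx
    rw [Finset.mem_range] at hk
    exact (hd q hq k hk).1
  have hinj : ∀ q ∈ QQ, ∀ k < L, ∀ l < L, κ q k = κ q l → k = l := by
    intro q hq k hk l hl a3
    have b1 := hκ q hq k hk
    have b2 := hκ q hq l hl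
    rw [← a3] at b2
    rcases lt_trichotomy k l with h | h | h
    · exfalso
      have : (k + 1) * d0 ≤ l * d0 := Nat.mul_le_mul_right _ h
      rw [add_mul, one_mul] at this
      omega
    · exact h
    · exfalso
      have : (l + 1) * d0 ≤ k * d0 := Nat.mul_le_mul_right _ h
      rw [add_mul, one_mul] at this
      omega
  have hcard : ∀ q ∈ QQ, (C q).card = L := by
    intro q hq
    rw [hC]
    rw [Finset.card_image_of_injOn, Finset.card_range]
    intro k hk l hl hkl
    rw [Finset.mem_coe, Finset.mem_range] at hk hl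
    have h1 := hd q hq k hk
    have h2 := hd q hq l hl
    have hkl' : d q k = d q l := hkl
    have hY' := hu q hq
    have hq2 := (hprime q hq).two_le
    have a1 := expo_le hq2 (by omega : H ≤ u q) (le_of_eq hkl'.symm) h1.2.2 h2.2.1
    have a2 := expo_le hq2 (by omega : H ≤ u q) (le_of_eq hkl') h2.2.2 h1.2.1
    have a3 : κ q k = κ q l := by omega
    exact hinj q hq k hk l hl a3
  have hint : ∀ p ∈ QQ, ∀ q ∈ QQ, p ≠ q → (C p ∩ C q).card ≤ 1 := by
    intro p hp q hq hpq
    rw [Finset.card_le_one]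
    have key : ∀ x ∈ C p ∩ C q, ∀ y ∈ C p ∩ C q, ¬ x < y := by
      intro x hx y hy hxy
      rw [Finset.mem_inter] at hx hy
      obtain ⟨l1', hl1', hxl⟩ := Finset.mem_image.1 hx.1
      obtain ⟨k1', hk1', hxk⟩ := Finset.mem_image.1 hx.2
      obtain ⟨l1, hl1, hyl⟩ := Finset.mem_image.1 hy.1
      obtain ⟨k1, hk1, hyk⟩ := Finset.mem_image.1 hy.2
      rw [Finset.mem_range] at hl1' hk1' hl1 hk1
      have X1 := hd p hp l1' hl1'
      have X2 := hd q hq k1' hk1'
      have Y1 := hd p hp l1 hl1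
      have Y2 := hd q hq k1 hk1
      have hk' := (hκ q hq k1' hk1').2.2
      have hl' := (hκ p hp l1' hl1').2.2
      have c3 : κ p l1 ≠ κ p l1' := by
        intro h
        have h9 := hinj p hp l1 hl1 l1' hl1' h
        rw [← h9, hyl] at hxl
        omega
      have c4 : κ q k1 ≠ κ q k1' := by
        intro h
        have h9 := hinj q hq k1 hk1 k1' hk1' h
        rw [← h9, hyk] at hxk
        omega
      rw [hxl] at X1
      rw [hxk] at X2
      rw [hyl] at Y1
      rw [hyk] at Y2
      generalize κ p l1' = l' at *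
      generalize κ q k1' = k' at *
      generalize κ p l1 = l at *
      generalize κ q k1 = k at *
      have hup := hu p hp
      have huq := hu q hq
      have hp2 := (hprime p hp).two_le
      have hq2 := (hprime q hq).two_le
      have c1 : l ≤ l' := expo_le hp2 (by omega) hxy.le Y1.2.2 X1.2.1
      have c2 : k ≤ k' := expo_le hq2 (by omega) hxy.le Y2.2.2 X2.2.1
      obtain ⟨a, rfl⟩ : ∃ a, k' = k + a := ⟨k' - k, by omega⟩
      obtain ⟨c, rfl⟩ : ∃ c, l' = l + c := ⟨l' - l, by omega⟩
      have ha : 1 ≤ a := by omega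
      have hc : 1 ≤ c := by omega
      have hne := pow_ne_pow_of_prime (hprime p hp) (hprime q hq) hpq ha hc
      -- closeness
      have close : ∀ (r k a : ℕ), 2 ≤ r → ∀ u, u < r ^ (k + a) * x → r ^ (k + a) * x ≤ u + H →
          u < r ^ k * y → r ^ k * y ≤ u + H →
          (r ^ a * x : ℤ) - y < H ∧ (y : ℤ) - r ^ a * x < H := by
        intro r k a hr u h1 h2 h3 h4
        have hrk : 1 ≤ r ^ k := Nat.one_le_pow _ _ (by omega)
        have e : r ^ (k + a) * x = r ^ k * (r ^ a * x) := by rw [pow_add]; ring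
        rw [e] at h1 h2
        have hrk' : (1 : ℤ) ≤ (r : ℤ) ^ k := by exact_mod_cast hrk
        have z1 : (u : ℤ) < (r : ℤ) ^ k * ((r : ℤ) ^ a * x) := by exact_mod_cast h1
        have z2 : (r : ℤ) ^ k * ((r : ℤ) ^ a * x) ≤ u + H := by exact_mod_cast h2
        have z3 : (u : ℤ) < (r : ℤ) ^ k * y := by exact_mod_cast h3
        have z4 : (r : ℤ) ^ k * y ≤ u + H := by exact_mod_cast h4
        have w1 : (r : ℤ) ^ k * ((r : ℤ) ^ a * x - y) < H := by
          rw [mul_sub]; linarith
        have w2 : (r : ℤ) ^ k * ((y : ℤ) - (r : ℤ) ^ a * x) < H := by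
          rw [mul_sub]; linarith
        have hH0 : (0 : ℤ) ≤ H := Int.natCast_nonneg _
        constructor
        · by_contra hcon
          push Not at hcon
          have : (0 : ℤ) ≤ (r : ℤ) ^ a * x - y := hH0.trans hcon
          nlinarith
        · by_contra hcon
          push Not at hcon
          have : (0 : ℤ) ≤ (y : ℤ) - (r : ℤ) ^ a * x := hH0.trans hcon
          nlinarith
      have A := close q k a hq2 (u q) X2.2.1 X2.2.2 Y2.2.1 Y2.2.2
      have B := close p l c hp2 (u p) X1.2.1 X1.2.2 Y1.2.1 Y1.2.2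
      have hx2H : x < 2 * H := by
        have hne' : (q : ℤ) ^ a - (p : ℤ) ^ c ≠ 0 := by
          intro h
          apply hne
          have : (q : ℤ) ^ a = (p : ℤ) ^ c := by linarith
          exact_mod_cast this
        have habs := Int.one_le_abs hne'
        have h1 : |((q : ℤ) ^ a - (p : ℤ) ^ c) * x| < 2 * H := by
          rw [abs_lt]
          constructor <;> nlinarith [A.1, A.2, B.1, B.2]
        rw [abs_mul] at h1
        have hx0 : (0 : ℤ) ≤ x := Int.natCast_nonneg _
        rw [abs_of_nonneg hx0] at h1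
        have h2 : (x : ℤ) < 2 * H := by nlinarith
        exact_mod_cast h2
      -- but `x` is large
      have h5 : q ^ (k + a) ≤ Q ^ K := by
        calc q ^ (k + a) ≤ Q ^ (k + a) := Nat.pow_le_pow_left (hQ q hq) _
          _ ≤ Q ^ K := Nat.pow_le_pow_right hQ1 hk'
      have h6 : q ^ (k + a) * x ≤ Q ^ K * x := Nat.mul_le_mul_right _ h5
      have h7 : Q ^ K * x ≤ 2 * H * Q ^ K := by
        calc Q ^ K * x ≤ Q ^ K * (2 * H) := Nat.mul_le_mul_left _ hx2H.le
          _ = 2 * H * Q ^ K := by ring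
      have h8 := X2.2.1
      omega
    intro x hx y hy
    have h1 := key x hx y hy
    have h2 := key y hy x hx
    omega
  have hub := union_bound QQ C L hcard hint
  have h1 := Finset.card_le_card hsub
  have h2 : QQ.card * QQ.card ≤ QQ.card * L := Nat.mul_le_mul_left _ hr
  omega


end Pool.Agent.H323R2.Gen
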