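import Pool.Agent.H52.V.S8.H323R2.Gen4

/-!
Starting pairs.
-/

set_option autoImplicit false

namespace Pool.Agent.H323R2.Gen

open Finset
open Pool.Agent.H393R2.DC (UU mem_UU compl_card)

open Polynomial in
/-- a starting pair -/
theorem start (b q K N d Z : ℕ) [Fact q.Prime] (hq : 2 ≤ q) (hb : (b : ZMod q) ≠ 0) (f P : ℤ[X])
    (hd : f.natDegree ≤ d) (hroot : ∀ a : ZMod q, (f.map (Int.castRingHom (ZMod q))).eval a ≠ 0)
    (E E2 : Finset ℕ) (hE2 : ∀ R ≤ N, R ∉ E2 → Pool.Agent.H393R2.DC.S b (f.comp P) R = 0)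
    (hcount : E2.card + (d + 1) * (2 + 2 * (Z + E.card)) ^ (d + 1) < (N + 1) / q ^ K) :
    ∃ w1 ∈ UU q K E N, ∃ w ∈ UU q K E N, Z ≤ w1 ∧ w1 ≤ w ∧
      vv b P q 1 (w / q ^ K) ≠ vv b P q 1 (w1 / q ^ K) := by
  classical
  by_contra hcon
  push Not at hcon
  have hqK : 0 < q ^ K := pow_pos (by omega) _
  obtain ⟨a, ha⟩ : ∃ a : ZMod q, ∀ w ∈ UU q K E N, Z ≤ w → vv b P q 1 (w / q ^ K) = a := by
    by_cases h : ∃ w1 ∈ UU q K E N, Z ≤ w1
    · obtain ⟨w1, hw1, hZ1⟩ := h
      refine ⟨vv b P q 1 (w1 / q ^ K), fun w hw hZ => ?_⟩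
      rcases le_total w1 w with h | h
      · exact hcon w1 hw1 w hw hZ1 h
      · exact (hcon w hw w1 hw1 hZ h).symm
    · push Not at h
      exact ⟨0, fun w hw hZ => absurd hZ (not_le.2 (h w hw))⟩
  set N' := (N + 1) / q ^ K - 1 with hN'
  have hN1 : 1 ≤ (N + 1) / q ^ K := by omega
  have hN'1 : N' + 1 = (N + 1) / q ^ K := by omega
  have hmul : (N' + 1) * q ^ K ≤ N + 1 := by
    rw [hN'1]; exact Nat.div_mul_le_self _ _
  set B := (range (N' + 1)).filter (fun R => vv b P q 1 R ≠ a) with hB
  have hBcard : B.card ≤ Z + E.card := by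
    have h1 : B ⊆ range Z ∪ B.filter (fun R => Z ≤ R) := by
      intro R hR
      rw [Finset.mem_union, Finset.mem_range, Finset.mem_filter]
      rcases lt_or_ge R Z with h | h
      · exact Or.inl h
      · exact Or.inr ⟨hR, h⟩
    have h2 : (B.filter (fun R => Z ≤ R)).card ≤ E.card := by
      have h3 : ((B.filter (fun R => Z ≤ R)) ×ˢ (range (q ^ K))).card ≤ E.card * q ^ K := by
        refine le_trans ?_ (compl_card hq K E N)
        apply Finset.card_le_card_of_injOn (fun x => x.1 * q ^ K + x.2)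
        · rintro ⟨R, r⟩ hx
          rw [Finset.mem_coe, Finset.mem_product, Finset.mem_filter, hB, Finset.mem_filter,
            Finset.mem_range, Finset.mem_range] at hx
          obtain ⟨⟨⟨hR1, hR2⟩, hR3⟩, hr⟩ := hx
          simp only at hR1 hR2 hR3 hr
          rw [Finset.mem_coe, Finset.mem_filter, Finset.mem_range]
          have hRq : (R + 1) * q ^ K ≤ (N' + 1) * q ^ K := Nat.mul_le_mul_right _ (by omega)
          rw [add_mul, one_mul] at hRq
          refine ⟨by simp only; omega, fun hU => hR2 ?_⟩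
          have hdiv : (R * q ^ K + r) / q ^ K = R := by
            rw [mul_comm, Nat.mul_add_div hqK, Nat.div_eq_of_lt hr, add_zero]
          have hZ : Z ≤ R * q ^ K + r := by
            have : R * 1 ≤ R * q ^ K := Nat.mul_le_mul_left _ hqK
            omega
          have h4 := ha _ hU hZ
          simp only at h4
          rwa [hdiv] at h4
        · rintro ⟨R, r⟩ hx ⟨R', r'⟩ hx' h
          rw [Finset.mem_coe, Finset.mem_product, Finset.mem_range] at hx hx'
          simp only at hx hx' h
          have e1 : R = R' := by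
            have h5 : (R * q ^ K + r) / q ^ K = (R' * q ^ K + r') / q ^ K := by rw [h]
            rwa [mul_comm R, Nat.mul_add_div hqK, Nat.div_eq_of_lt hx.2, add_zero,
              mul_comm R', Nat.mul_add_div hqK, Nat.div_eq_of_lt hx'.2, add_zero] at h5
          subst e1
          have e2 : r = r' := by omega
          rw [e2]
      rw [Finset.card_product, Finset.card_range] at h3
      exact Nat.le_of_mul_le_mul_right h3 hqK
    have h3 := (Finset.card_le_card h1).trans (Finset.card_union_le _ _)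
    rw [Finset.card_range] at h3
    omega
  apply hroot a
  have hN'N : N' ≤ N := by
    have : (N' + 1) * 1 ≤ (N' + 1) * q ^ K := Nat.mul_le_mul_left _ hqK
    omega
  refine root_of_const b q hb f P d hd a N' B E2 ?_ ?_ ?_
  · intro R hR h
    rw [hB, Finset.mem_filter, Finset.mem_range]
    exact ⟨by omega, h⟩
  · intro R hR h
    exact hE2 R (by omega) h
  · rw [hN'1]
    refine lt_of_le_of_lt ?_ hcount
    apply Nat.add_le_add_left
    apply Nat.mul_le_mul_left
    exact Nat.pow_le_pow_left (by omega) _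

end Pool.Agent.H323R2.Gen
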