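import Pool.Agent.H52.V.S8.H323R2.Gen2
import Pool.Agent.H52.V.S8.H323R2.Gen5
import Pool.Agent.H52.V.S8.H323R2.Gen6

/-!
The finite form of the lower bound.
-/

set_option autoImplicit false

namespace Pool.Agent.H323R2.Gen

open Finset
open Pool.Agent.H393R2.DC (UU mem_UU S Pol dlt V Dn)

open Polynomial in
lemma vv_step (b : ℕ) (P : ℤ[X]) (q : ℕ) [Fact q.Prime] (hb : (b : ZMod q) ≠ 0) (R : ℕ)
    (h : P.coeff (R + 1) = 0) : vv b P q 1 (R + 1) = vv b P q 1 R := by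
  unfold vv
  rw [pow_one, Pool.Agent.H393R2.DC.S_succ, h, add_zero, pow_succ]
  push_cast
  field_simp

open Polynomial in
theorem finite_bound (f : ℤ[X]) (hf : f.Monic) (d : ℕ) (hd : f.natDegree = d) (hd2 : 2 ≤ d)
    (b : ℕ) (U : ℕ → ℤ) (N K Q Z e L : ℕ) (QQ : Finset ℕ)
    (hQQ : ∀ q ∈ QQ, q.Prime ∧ q ≤ Q ∧ (b : ZMod q) ≠ 0 ∧
      ∀ a : ZMod q, (f.map (Int.castRingHom (ZMod q))).eval a ≠ 0)
    (hbad : ∀ q ∈ QQ, (badG f d b (Pol b U N) q N).card ≤ e)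
    (hbad2 : ((range (N + 1)).filter (fun R => S b (f.comp (Pol b U N)) R ≠ 0)).card ≤ e)
    (hL : L * d ≤ K + 1)
    (h1 : (e + (d + 1) * (2 + 2 * (Z + e)) ^ (d + 1) + 1) * Q ^ K ≤ N + 1)
    (h2 : 2 * (e * Q ^ K + 1) * Q ^ K ≤ Z) (h3 : QQ.card ≤ L) :
    QQ.card * L ≤ 2 * (Dn b U N).card := by
  classical
  refine multi QQ K (e * Q ^ K + 1) Z Q L d (Dn b U N) (fun q hq => (hQQ q hq).1)
    (fun q hq => (hQQ q hq).2.1) h2 ?_ h3
  intro q hq
  obtain ⟨hqp, hqQ, hqb, hqr⟩ := hQQ q hq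
  have : Fact q.Prime := ⟨hqp⟩
  have hq2 := hqp.two_le
  set P := Pol b U N with hP
  set E := badG f d b P q N with hE
  set E2 := (range (N + 1)).filter (fun R => S b (f.comp P) R ≠ 0) with hE2
  have hEc : E.card ≤ e := hbad q hq
  have hqK : 0 < q ^ K := pow_pos (by omega) _
  have hQK : q ^ K ≤ Q ^ K := Nat.pow_le_pow_left hqQ _
  obtain ⟨w1, hw1, w, hw, hZ1, hle, hne⟩ := start b q K N d Z hq2 hqb f P hd.le hqr E E2 (by
      intro R hR hRE
      by_contra h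
      exact hRE (Finset.mem_filter.2 ⟨Finset.mem_range.2 (by omega), h⟩)) (by
      have e1 : E2.card + (d + 1) * (2 + 2 * (Z + E.card)) ^ (d + 1) ≤
          e + (d + 1) * (2 + 2 * (Z + e)) ^ (d + 1) := by
        apply Nat.add_le_add hbad2
        apply Nat.mul_le_mul_left
        exact Nat.pow_le_pow_left (by omega) _
      refine lt_of_le_of_lt e1 ?_
      rw [Nat.lt_iff_add_one_le, Nat.le_div_iff_mul_le hqK]
      exact (Nat.mul_le_mul_left _ hQK).trans h1)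
  obtain ⟨u, hu, v, hv, hw1u, huv, hgap, hguv⟩ := adjacent q K N hq2 E
    (fun x => vv b P q 1 (x / q ^ K)) w1 w hw1 hw hle hne
  refine ⟨u, hZ1.trans hw1u, fun j hj => ?_⟩
  have hjd : j * d + d ≤ K + 1 := by
    have : (j + 1) * d ≤ L * d := Nat.mul_le_mul_right _ hj
    rw [add_mul, one_mul] at this
    omega
  obtain ⟨k, hk1, hk2, δ, hδ, hδ1, hδ2⟩ := chain q K N d hq2 E (MM f d q) (ve d b P q)
    (fun R hR hRE => ve_dil f hf d hd (by omega) b P q hqb N R hR hRE) ⟨1, by omega⟩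
    (fun k => k ≤ N ∧ dlt b U k ≠ 0) (by
      intro k hk
      apply vv_step b P q hqb
      rw [hP, Pool.Agent.H393R2.DC.Pol_coeff]
      split_ifs with h
      · by_contra h0
        exact hk ⟨h, h0⟩
      · rfl) u v hu hv huv hguv (j * d) hjd
  refine ⟨k, ⟨hk1, hk2, by omega⟩, δ, ?_, hδ1, ?_⟩
  · unfold Dn
    rw [Finset.mem_filter, Finset.mem_range]
    exact ⟨by omega, hδ.2⟩
  · have h4 : E.card * q ^ K ≤ e * Q ^ K := Nat.mul_le_mul hEc hQK
    omega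

end Pool.Agent.H323R2.Gen
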