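import Pool.Agent.H52.V.S8.H484R2.Pit

/-!
Homomorphisms from rings of integers to prime fields and roots modulo primes.
-/

set_option autoImplicit false

namespace Pool.Agent.H323R2.NT

open Polynomial NumberField Module

lemma dvd_of_aeval (f : ℤ[X]) (hirr : Irreducible f) (hf : f.Monic) (K : Type)
    [Field K] [NumberField K] (θ : K) (hθ : aeval θ f = 0) (g : ℤ[X]) (hg : aeval θ g = 0) :
    f ∣ g := by
  have hint : IsIntegral ℤ θ := ⟨f, hf, by rwa [aeval_def] at hθ⟩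
  obtain ⟨u, hu⟩ := minpoly.isIntegrallyClosed_dvd hint hθ
  have h1 : IsUnit u := by
    rcases hirr.isUnit_or_isUnit hu with h | h
    · exact absurd h (minpoly.not_isUnit ℤ θ)
    · exact h
  have h2 : Associated (minpoly ℤ θ) f := by
    rw [hu]; exact (associated_mul_unit_right _ _ h1)
  exact h2.dvd'.trans (minpoly.isIntegrallyClosed_dvd hint hg)

lemma exists_den (K : Type) [Field K] [NumberField K] (θ : K)
    (hgen : ∀ x : K, ∃ g : ℚ[X], x = aeval θ g) (x : K) :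
    ∃ m : ℤ, m ≠ 0 ∧ ∃ g : ℤ[X], (m : K) * x = aeval θ g := by
  obtain ⟨g0, hg0⟩ := hgen x
  obtain ⟨b, hb, h⟩ := IsLocalization.integerNormalization_spec (nonZeroDivisors ℤ) g0
  refine ⟨b, nonZeroDivisors.ne_zero hb, IsLocalization.integerNormalization (nonZeroDivisors ℤ) g0, ?_⟩
  have h1 : aeval θ (IsLocalization.integerNormalization (nonZeroDivisors ℤ) g0) =
      aeval θ ((IsLocalization.integerNormalization (nonZeroDivisors ℤ) g0).map (algebraMap ℤ ℚ)) := by
    rw [aeval_map_algebraMap]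
  rw [h1, h, hg0]
  rw [show (b • g0 : ℚ[X]) = C (b : ℚ) * g0 by
    rw [← Polynomial.smul_eq_C_mul]; ext n; simp]
  rw [map_mul, aeval_C]
  simp

lemma exists_index (K : Type) [Field K] [NumberField K] (θ : K)
    (hgen : ∀ x : K, ∃ g : ℚ[X], x = aeval θ g) :
    ∃ m : ℤ, m ≠ 0 ∧ ∀ α : 𝓞 K, ∃ g : ℤ[X], (m : K) * (α : K) = aeval θ g := by
  classical
  have h1 := fun i => exists_den K θ hgen ((RingOfIntegers.basis K i : 𝓞 K) : K)
  choose m hm g hg using h1
  refine ⟨∏ i, m i, Finset.prod_ne_zero_iff.2 fun i _ => hm i, fun α => ?_⟩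
  refine ⟨∑ i, C ((RingOfIntegers.basis K).repr α i * ∏ j ∈ Finset.univ.erase i, m j) * g i, ?_⟩
  have h2 : (α : K) = ∑ i, (((RingOfIntegers.basis K).repr α i : ℤ) : K) *
      ((RingOfIntegers.basis K i : 𝓞 K) : K) := by
    conv_lhs => rw [← (RingOfIntegers.basis K).sum_repr α]
    change algebraMap (𝓞 K) K (∑ i, (RingOfIntegers.basis K).repr α i • RingOfIntegers.basis K i) = _
    rw [map_sum]
    apply Finset.sum_congr rfl
    intro i _
    rw [zsmul_eq_mul, map_mul, map_intCast]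
  rw [h2, Finset.mul_sum, map_sum]
  apply Finset.sum_congr rfl
  intro i _
  rw [map_mul, ← hg i, aeval_C]
  have h3 : (∏ j, m j) = m i * ∏ j ∈ Finset.univ.erase i, m j :=
    (Finset.mul_prod_erase _ _ (Finset.mem_univ i)).symm
  rw [h3]
  simp only [algebraMap_int_eq, eq_intCast]
  push_cast
  ring

theorem hom_of_root (f : ℤ[X]) (hf : f.Monic) (hirr : Irreducible f) (K : Type)
    [Field K] [NumberField K] (θ : K) (hθ : aeval θ f = 0)
    (hgen : ∀ x : K, ∃ g : ℚ[X], x = aeval θ g) :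
    ∃ m : ℤ, m ≠ 0 ∧ ∀ p : ℕ, p.Prime → ¬ (p : ℤ) ∣ m → ∀ a : ZMod p,
      (f.map (Int.castRingHom (ZMod p))).eval a = 0 → Nonempty (𝓞 K →+* ZMod p) := by
  obtain ⟨m, hm, hidx⟩ := exists_index K θ hgen
  refine ⟨m, hm, fun p hp hpm a ha => ?_⟩
  have : Fact p.Prime := ⟨hp⟩
  choose g hg using hidx
  set ev : ℤ[X] →+* ZMod p := eval₂RingHom (Int.castRingHom (ZMod p)) a with hev
  have hevf : ev f = 0 := by
    rw [hev, coe_eval₂RingHom, ← eval_map]; exact ha
  have key : ∀ h1 h2 : ℤ[X], aeval θ h1 = aeval θ h2 → ev h1 = ev h2 := by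
    intro h1 h2 h
    obtain ⟨r, hr⟩ := dvd_of_aeval f hirr hf K θ hθ (h1 - h2) (by rw [map_sub, h, sub_self])
    have h3 : ev (h1 - h2) = 0 := by rw [hr, map_mul, hevf, zero_mul]
    rw [map_sub] at h3
    exact sub_eq_zero.1 h3
  have hm0 : (m : ZMod p) ≠ 0 := by
    rw [Ne, ZMod.intCast_zmod_eq_zero_iff_dvd]; exact hpm
  have hevC : ∀ c : ℤ, ev (C c) = (c : ZMod p) := by
    intro c; rw [hev, coe_eval₂RingHom, eval₂_C]; rfl
  have hone : ev (g 1) = (m : ZMod p) := by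
    rw [← hevC]
    apply key
    rw [← hg, aeval_C]; simp
  have hmul : ∀ α β : 𝓞 K, (m : ZMod p) * ev (g (α * β)) = ev (g α) * ev (g β) := by
    intro α β
    rw [← hevC, ← map_mul, ← map_mul]
    apply key
    rw [map_mul, map_mul, ← hg, ← hg, ← hg, aeval_C]
    have h0 : ((α * β : 𝓞 K) : K) = (α : K) * (β : K) := rfl
    rw [h0]
    simp only [algebraMap_int_eq, eq_intCast]
    ring
  have hadd : ∀ α β : 𝓞 K, ev (g (α + β)) = ev (g α) + ev (g β) := by
    intro α β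
    rw [← map_add]
    apply key
    rw [map_add, ← hg, ← hg, ← hg]
    have h0 : ((α + β : 𝓞 K) : K) = (α : K) + (β : K) := rfl
    rw [h0]
    ring
  have hzero : ev (g 0) = 0 := by
    have := hadd 0 0
    rw [add_zero] at this
    exact left_eq_add.1 this
  refine ⟨⟨⟨⟨fun α => (m : ZMod p)⁻¹ * ev (g α), ?_⟩, ?_⟩, ?_, ?_⟩⟩
  · rw [hone, inv_mul_cancel₀ hm0]
  · intro α β
    simp only
    have h := hmul α β
    have h2 : ev (g (α * β)) = (m : ZMod p)⁻¹ * (ev (g α) * ev (g β)) := by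
      rw [← h, inv_mul_cancel_left₀ hm0]
    rw [h2]; ring
  · simp only
    rw [hzero, mul_zero]
  · intro α β
    simp only
    rw [hadd]; ring

theorem two_homs (K L : Type) [Field K] [NumberField K] [Field L] [NumberField L]
    (i1 i2 : K →+* L) (θ : 𝓞 K) (hne : i1 (θ : K) ≠ i2 (θ : K)) :
    ∃ m : ℕ, m ≠ 0 ∧ ∀ p : ℕ, p.Prime → ¬ p ∣ m → Nonempty (𝓞 L →+* ZMod p) →
      2 ≤ Nat.card (𝓞 K →+* ZMod p) := by
  set γ : 𝓞 L := RingOfIntegers.mapRingHom i1 θ - RingOfIntegers.mapRingHom i2 θ with hγ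
  have hγ0 : γ ≠ 0 := by
    intro h
    apply hne
    have h1 : RingOfIntegers.mapRingHom i1 θ = RingOfIntegers.mapRingHom i2 θ := sub_eq_zero.1 h
    have h2 := congrArg (fun z : 𝓞 L => (z : L)) h1
    simpa using h2
  refine ⟨Ideal.absNorm (Ideal.span {γ}), ?_, fun p hp hpm ⟨ψ⟩ => ?_⟩
  · rw [Ne, Ideal.absNorm_eq_zero_iff, Ideal.span_singleton_eq_bot]
    exact hγ0
  have : Fact p.Prime := ⟨hp⟩
  have hfin := Pool.Agent.H484R2.hom_finite K p
  have hmem := Ideal.absNorm_mem (Ideal.span {γ})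
  rw [Ideal.mem_span_singleton] at hmem
  obtain ⟨e, he⟩ := hmem
  have hψ : ψ γ ≠ 0 := by
    intro h0
    have h1 := congrArg ψ he
    rw [map_mul, h0, zero_mul, map_natCast, ZMod.natCast_eq_zero_iff] at h1
    exact hpm h1
  have hne2 : ψ.comp (RingOfIntegers.mapRingHom i1) ≠ ψ.comp (RingOfIntegers.mapRingHom i2) := by
    intro h
    apply hψ
    have h1 := RingHom.congr_fun h θ
    simp only [RingHom.comp_apply] at h1
    rw [hγ, map_sub, h1, sub_self]
  have : Nontrivial (𝓞 K →+* ZMod p) := ⟨⟨_, _, hne2⟩⟩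
  have := Finite.one_lt_card_iff_nontrivial.2 this
  omega

end Pool.Agent.H323R2.NT
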