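import Mathlib

/-! Part M: a graph on integers whose edges are labelled by primes `q ≤ Q` with ratio about `q`
has few edges. -/

namespace Pool.Agent.H323R2.Walk

open Finset

def av (s : Finset (ℕ × Bool)) : ℕ := ∏ x ∈ s, (if x.2 then x.1 else 1)
def bv (s : Finset (ℕ × Bool)) : ℕ := ∏ x ∈ s, (if x.2 then 1 else x.1)

structure OK (V : Finset ℕ) (Q H z0 : ℕ) (s : Finset (ℕ × Bool)) (z : ℕ) : Prop where
  mem : z ∈ V
  pr : ∀ x ∈ s, x.1.Prime ∧ x.1 ≤ Q
  inj : ∀ x ∈ s, ∀ y ∈ s, x.1 = y.1 → x = y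
  err : |(bv s : ℤ) * z - av s * z0| ≤ s.card * (Q : ℤ) ^ s.card * H

theorem bv_le {Q : ℕ} (hQ : 1 ≤ Q) {s : Finset (ℕ × Bool)} (h : ∀ x ∈ s, x.1.Prime ∧ x.1 ≤ Q) :
    bv s ≤ Q ^ s.card := by
  unfold bv
  refine Finset.prod_le_pow_card _ _ _ ?_
  intro x hx
  split_ifs
  · exact hQ
  · exact (h x hx).2

theorem av_le {Q : ℕ} (hQ : 1 ≤ Q) {s : Finset (ℕ × Bool)} (h : ∀ x ∈ s, x.1.Prime ∧ x.1 ≤ Q) :
    av s ≤ Q ^ s.card := by
  unfold av
  refine Finset.prod_le_pow_card _ _ _ ?_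
  intro x hx
  split_ifs
  · exact (h x hx).2
  · exact hQ

/-- the relation of a move -/
def Mv (H : ℕ) (z : ℕ) (x : ℕ × Bool) (z' : ℕ) : Prop :=
  if x.2 then |(z' : ℤ) - x.1 * z| ≤ H else |(z : ℤ) - x.1 * z'| ≤ H

theorem ok_step {V : Finset ℕ} {Q H z0 : ℕ} (hQ : 1 ≤ Q) {s : Finset (ℕ × Bool)} {z z' : ℕ}
    (h : OK V Q H z0 s z) {x : ℕ × Bool} (hx : ∀ y ∈ s, y.1 ≠ x.1) (hxp : x.1.Prime)
    (hxQ : x.1 ≤ Q) (hz' : z' ∈ V) (hm : Mv H z x z') : OK V Q H z0 (insert x s) z' := by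
  have hxs : x ∉ s := fun hh => hx x hh rfl
  have hb := bv_le hQ h.pr
  have hcard : (insert x s).card = s.card + 1 := Finset.card_insert_of_notMem hxs
  have herr := h.err
  have hQ0 : (1 : ℤ) ≤ Q := by exact_mod_cast hQ
  have hbz : (bv s : ℤ) ≤ (Q : ℤ) ^ s.card := by exact_mod_cast hb
  have hH : (0 : ℤ) ≤ H := by positivity
  have hQp : (Q : ℤ) ^ s.card ≤ (Q : ℤ) ^ (s.card + 1) := by
    rw [pow_succ]
    nlinarith [pow_pos (by linarith : (0 : ℤ) < Q) s.card]
  refine ⟨hz', ?_, ?_, ?_⟩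
  · intro y hy
    rcases Finset.mem_insert.1 hy with rfl | hy
    · exact ⟨hxp, hxQ⟩
    · exact h.pr y hy
  · intro y hy w hw hyw
    rcases Finset.mem_insert.1 hy with hyx | hy
    · rcases Finset.mem_insert.1 hw with hwx | hw
      · rw [hyx, hwx]
      · exact absurd (by rw [← hyw, hyx]) (hx w hw)
    · rcases Finset.mem_insert.1 hw with hwx | hw
      · exact absurd (by rw [hyw, hwx]) (hx y hy)
      · exact h.inj y hy w hw hyw
  · rw [hcard]
    unfold Mv at hm
    by_cases hx2 : x.2 = true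
    · have ha : av (insert x s) = x.1 * av s := by
        unfold av; rw [Finset.prod_insert hxs, if_pos hx2]
      have hb' : bv (insert x s) = bv s := by
        unfold bv; rw [Finset.prod_insert hxs, if_pos hx2, one_mul]
      rw [if_pos hx2] at hm
      rw [ha, hb']
      have e1 : (bv s : ℤ) * z' - ((x.1 * av s : ℕ) : ℤ) * z0
          = bv s * ((z' : ℤ) - x.1 * z) + x.1 * ((bv s : ℤ) * z - av s * z0) := by
        push_cast; ring
      rw [e1]
      have e2 : |(bv s : ℤ) * ((z' : ℤ) - x.1 * z)| ≤ (Q : ℤ) ^ s.card * H := by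
        rw [abs_mul, abs_of_nonneg (by positivity : (0 : ℤ) ≤ bv s)]
        exact mul_le_mul hbz hm (abs_nonneg _) (by positivity)
      have e3 : |(x.1 : ℤ) * ((bv s : ℤ) * z - av s * z0)|
          ≤ (Q : ℤ) * (s.card * (Q : ℤ) ^ s.card * H) := by
        rw [abs_mul, abs_of_nonneg (by positivity : (0 : ℤ) ≤ x.1)]
        exact mul_le_mul (by exact_mod_cast hxQ) herr (abs_nonneg _) (by positivity)
      refine (abs_add_le _ _).trans ((add_le_add e2 e3).trans ?_)
      push_cast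
      have : (Q : ℤ) ^ s.card * H ≤ (Q : ℤ) ^ (s.card + 1) * H :=
        mul_le_mul_of_nonneg_right hQp hH
      have e4 : (Q : ℤ) * (s.card * (Q : ℤ) ^ s.card * H) = s.card * ((Q : ℤ) ^ (s.card + 1) * H) := by
        ring
      rw [e4]
      linarith
    · have ha : av (insert x s) = av s := by
        unfold av; rw [Finset.prod_insert hxs, if_neg hx2, one_mul]
      have hb' : bv (insert x s) = x.1 * bv s := by
        unfold bv; rw [Finset.prod_insert hxs, if_neg hx2]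
      rw [if_neg hx2] at hm
      rw [ha, hb']
      have e1 : ((x.1 * bv s : ℕ) : ℤ) * z' - (av s : ℤ) * z0
          = - (bv s * ((z : ℤ) - x.1 * z')) + ((bv s : ℤ) * z - av s * z0) := by
        push_cast; ring
      rw [e1]
      have e2 : |-((bv s : ℤ) * ((z : ℤ) - x.1 * z'))| ≤ (Q : ℤ) ^ s.card * H := by
        rw [abs_neg, abs_mul, abs_of_nonneg (by positivity : (0 : ℤ) ≤ bv s)]
        exact mul_le_mul hbz hm (abs_nonneg _) (by positivity)
      refine (abs_add_le _ _).trans ((add_le_add e2 herr).trans ?_)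
      push_cast
      have : (Q : ℤ) ^ s.card * H ≤ (Q : ℤ) ^ (s.card + 1) * H :=
        mul_le_mul_of_nonneg_right hQp hH
      have h5 : (s.card : ℤ) * ((Q : ℤ) ^ s.card * H) ≤ s.card * ((Q : ℤ) ^ (s.card + 1) * H) :=
        mul_le_mul_of_nonneg_left this (by positivity)
      have e6 : (s.card : ℤ) * (Q : ℤ) ^ s.card * H = s.card * ((Q : ℤ) ^ s.card * H) := by ring
      rw [e6]
      linarith

theorem sub_of_eq {s t : Finset (ℕ × Bool)} (hs : ∀ x ∈ s, x.1.Prime)
    (hsi : ∀ x ∈ s, ∀ y ∈ s, x.1 = y.1 → x = y) (ht : ∀ x ∈ t, x.1.Prime)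
    (h : av s * bv t = av t * bv s) : s ⊆ t := by
  intro x hx
  have hp := (hs x hx).prime
  by_cases hx2 : x.2 = true
  · have h1 : x.1 ∣ av s := by
      unfold av
      have := Finset.dvd_prod_of_mem (fun y : ℕ × Bool => if y.2 then y.1 else 1) hx
      simpa [hx2] using this
    have h2 : ¬ x.1 ∣ bv s := by
      unfold bv
      rw [Prime.dvd_finset_prod_iff hp]
      rintro ⟨y, hy, hd⟩
      by_cases hy2 : y.2 = true
      · rw [if_pos hy2] at hd
        exact hp.not_dvd_one hd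
      · rw [if_neg hy2] at hd
        have := (Nat.prime_dvd_prime_iff_eq (hs x hx) (hs y hy)).1 hd
        have := hsi x hx y hy this
        rw [this] at hx2
        exact hy2 hx2
    have h3 : x.1 ∣ av t := by
      have : x.1 ∣ av t * bv s := by rw [← h]; exact h1.mul_right _
      exact (hp.dvd_or_dvd this).resolve_right h2
    unfold av at h3
    rw [Prime.dvd_finset_prod_iff hp] at h3
    obtain ⟨y, hy, hd⟩ := h3
    by_cases hy2 : y.2 = true
    · rw [if_pos hy2] at hd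
      have := (Nat.prime_dvd_prime_iff_eq (hs x hx) (ht y hy)).1 hd
      have : x = y := Prod.ext this (by rw [hx2, hy2])
      rw [this]; exact hy
    · rw [if_neg hy2] at hd
      exact absurd hd hp.not_dvd_one
  · have h1 : x.1 ∣ bv s := by
      unfold bv
      have := Finset.dvd_prod_of_mem (fun y : ℕ × Bool => if y.2 then 1 else y.1) hx
      simpa [hx2] using this
    have h2 : ¬ x.1 ∣ av s := by
      unfold av
      rw [Prime.dvd_finset_prod_iff hp]
      rintro ⟨y, hy, hd⟩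
      by_cases hy2 : y.2 = true
      · rw [if_pos hy2] at hd
        have := (Nat.prime_dvd_prime_iff_eq (hs x hx) (hs y hy)).1 hd
        have := hsi x hx y hy this
        rw [this] at hx2
        exact hx2 hy2
      · rw [if_neg hy2] at hd
        exact hp.not_dvd_one hd
    have h3 : x.1 ∣ bv t := by
      have : x.1 ∣ av s * bv t := by rw [h]; exact h1.mul_left _
      exact (hp.dvd_or_dvd this).resolve_left h2
    unfold bv at h3
    rw [Prime.dvd_finset_prod_iff hp] at h3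
    obtain ⟨y, hy, hd⟩ := h3
    by_cases hy2 : y.2 = true
    · rw [if_pos hy2] at hd
      exact absurd hd hp.not_dvd_one
    · rw [if_neg hy2] at hd
      have := (Nat.prime_dvd_prime_iff_eq (hs x hx) (ht y hy)).1 hd
      have : x = y := Prod.ext this (by
        rw [Bool.not_eq_true] at hx2 hy2
        rw [hx2, hy2])
      rw [this]; exact hy

theorem ok_inj {V : Finset ℕ} {Q H z0 Z ℓ : ℕ} (hQ : 1 ≤ Q) {s t : Finset (ℕ × Bool)} {z : ℕ}
    (hs : OK V Q H z0 s z) (ht : OK V Q H z0 t z) (hsc : s.card = ℓ) (htc : t.card = ℓ)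
    (hz0 : Z < z0) (hbig : 2 * ℓ * Q ^ (2 * ℓ) * H < Z) : s = t := by
  have key : (av s : ℤ) * bv t = av t * bv s := by
    by_contra hne
    have h1 : (1 : ℤ) ≤ |(av s : ℤ) * bv t - av t * bv s| := by
      exact Int.one_le_abs (sub_ne_zero.2 hne)
    have e1 : ((av s : ℤ) * bv t - av t * bv s) * z0
        = - (bv t * ((bv s : ℤ) * z - av s * z0)) + bv s * ((bv t : ℤ) * z - av t * z0) := by ring
    have hsz : (bv s : ℤ) ≤ (Q : ℤ) ^ ℓ := by
      have := bv_le hQ hs.pr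
      rw [hsc] at this
      exact_mod_cast this
    have htz : (bv t : ℤ) ≤ (Q : ℤ) ^ ℓ := by
      have := bv_le hQ ht.pr
      rw [htc] at this
      exact_mod_cast this
    have hse := hs.err
    have hte := ht.err
    rw [hsc] at hse
    rw [htc] at hte
    have h2 : |((av s : ℤ) * bv t - av t * bv s) * z0|
        ≤ (Q : ℤ) ^ ℓ * (ℓ * (Q : ℤ) ^ ℓ * H) + (Q : ℤ) ^ ℓ * (ℓ * (Q : ℤ) ^ ℓ * H) := by
      rw [e1]
      refine (abs_add_le _ _).trans (add_le_add ?_ ?_)
      · rw [abs_neg, abs_mul, abs_of_nonneg (by positivity : (0 : ℤ) ≤ bv t)]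
        exact mul_le_mul htz hse (abs_nonneg _) (by positivity)
      · rw [abs_mul, abs_of_nonneg (by positivity : (0 : ℤ) ≤ bv s)]
        exact mul_le_mul hsz hte (abs_nonneg _) (by positivity)
    rw [abs_mul, abs_of_nonneg (by positivity : (0 : ℤ) ≤ z0)] at h2
    have h3 : (z0 : ℤ) ≤ |(av s : ℤ) * bv t - av t * bv s| * z0 := by
      nlinarith [(by positivity : (0 : ℤ) ≤ z0)]
    have h4 : ((2 * ℓ * Q ^ (2 * ℓ) * H : ℕ) : ℤ) < z0 := by
      exact_mod_cast hbig.trans hz0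
    push_cast at h4
    have e5 : (2 : ℤ) * ℓ * (Q : ℤ) ^ (2 * ℓ) * H
        = (Q : ℤ) ^ ℓ * (ℓ * (Q : ℤ) ^ ℓ * H) + (Q : ℤ) ^ ℓ * (ℓ * (Q : ℤ) ^ ℓ * H) := by
      rw [two_mul ℓ, pow_add]; ring
    rw [e5] at h4
    linarith
  have key' : av s * bv t = av t * bv s := by exact_mod_cast key
  apply Finset.Subset.antisymm
  · exact sub_of_eq (fun x hx => (hs.pr x hx).1) hs.inj (fun x hx => (ht.pr x hx).1) key'
  · exact sub_of_eq (fun x hx => (ht.pr x hx).1) ht.inj (fun x hx => (hs.pr x hx).1) key'.symm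

open Classical in
/-- signed sets with `i` elements reachable from `z0` -/
noncomputable def RR (V : Finset ℕ) (Q H z0 i : ℕ) : Finset (Finset (ℕ × Bool)) :=
  ((Finset.range (Q + 1) ×ˢ (Finset.univ : Finset Bool)).powerset).filter
    (fun s => s.card = i ∧ ∃ z, OK V Q H z0 s z)

theorem mem_RR {V : Finset ℕ} {Q H z0 i : ℕ} {s : Finset (ℕ × Bool)} :
    s ∈ RR V Q H z0 i ↔ s.card = i ∧ ∃ z, OK V Q H z0 s z := by
  classical
  unfold RR
  rw [Finset.mem_filter, Finset.mem_powerset]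
  constructor
  · exact fun h => h.2
  · rintro ⟨h1, z, hz⟩
    refine ⟨?_, h1, z, hz⟩
    intro x hx
    rw [Finset.mem_product, Finset.mem_range]
    exact ⟨Nat.lt_succ_of_le (hz.pr x hx).2, Finset.mem_univ _⟩

theorem RR_step {V : Finset ℕ} {Q H z0 : ℕ} (hQ : 1 ≤ Q) (mv : ℕ → Finset (ℕ × Bool))
    (nx : ℕ → ℕ × Bool → ℕ)
    (hmv : ∀ v ∈ V, ∀ x ∈ mv v, x.1.Prime ∧ x.1 ≤ Q ∧ nx v x ∈ V ∧ Mv H v x (nx v x)) (D : ℕ)
    (hD : ∀ v ∈ V, D ≤ (mv v).card) (i : ℕ) :
    (RR V Q H z0 i).card * (D - 2 * i) ≤ (RR V Q H z0 (i + 1)).card * (i + 1) := by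
  classical
  -- choice of end point
  have hch : ∀ s : Finset (ℕ × Bool), ∃ z, s ∈ RR V Q H z0 i → OK V Q H z0 s z := by
    intro s
    by_cases h : s ∈ RR V Q H z0 i
    · obtain ⟨_, z, hz⟩ := mem_RR.1 h
      exact ⟨z, fun _ => hz⟩
    · exact ⟨0, fun h' => absurd h' h⟩
  choose zz hzz using hch
  set good : Finset (ℕ × Bool) → Finset (ℕ × Bool) :=
    fun s => (mv (zz s)) \ ((s.image Prod.fst) ×ˢ (Finset.univ : Finset Bool)) with hgood
  have hgm : ∀ s x, x ∈ good s → x ∈ mv (zz s) ∧ ∀ y ∈ s, y.1 ≠ x.1 := by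
    intro s x hx
    rw [hgood] at hx
    simp only at hx
    rw [Finset.mem_sdiff] at hx
    refine ⟨hx.1, fun y hy hyx => hx.2 ?_⟩
    rw [Finset.mem_product]
    exact ⟨Finset.mem_image.2 ⟨y, hy, hyx⟩, Finset.mem_univ _⟩
  have hgc : ∀ s ∈ RR V Q H z0 i, D - 2 * i ≤ (good s).card := by
    intro s hs
    have hsc := (mem_RR.1 hs).1
    have h1 : ((s.image Prod.fst) ×ˢ (Finset.univ : Finset Bool)).card ≤ 2 * i := by
      rw [Finset.card_product]
      have h2 : (s.image Prod.fst).card ≤ i := Finset.card_image_le.trans hsc.le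
      have h3 : (Finset.univ : Finset Bool).card = 2 := by simp
      rw [h3]
      omega
    have h2 := Finset.le_card_sdiff ((s.image Prod.fst) ×ˢ (Finset.univ : Finset Bool)) (mv (zz s))
    have h3 := hD (zz s) (hzz s hs).mem
    simp only [hgood]
    omega
  calc (RR V Q H z0 i).card * (D - 2 * i)
      = ∑ s ∈ RR V Q H z0 i, (D - 2 * i) := by rw [Finset.sum_const, smul_eq_mul]
    _ ≤ ∑ s ∈ RR V Q H z0 i, (good s).card := Finset.sum_le_sum hgc
    _ = ((RR V Q H z0 i).sigma good).card := by rw [Finset.card_sigma]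
    _ ≤ ((RR V Q H z0 (i + 1)).sigma (fun t => t)).card := by
        refine Finset.card_le_card_of_injOn
          (fun p => (⟨insert p.2 p.1, p.2⟩ : Σ _ : Finset (ℕ × Bool), (ℕ × Bool))) ?_ ?_
        · rintro ⟨s, x⟩ hp
          rw [Finset.mem_coe, Finset.mem_sigma] at hp
          obtain ⟨hs, hx⟩ := hp
          simp only at hs hx
          rw [Finset.mem_coe, Finset.mem_sigma]
          simp only
          have hx' := hgm _ _ hx
          have hok := hzz s hs
          obtain ⟨m1, m2, m3, m4⟩ := hmv (zz s) hok.mem x hx'.1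
          have hxs : x ∉ s := fun hh => hx'.2 x hh rfl
          refine ⟨mem_RR.2 ⟨?_, _, ok_step hQ hok hx'.2 m1 m2 m3 m4⟩, Finset.mem_insert_self _ _⟩
          rw [Finset.card_insert_of_notMem hxs, (mem_RR.1 hs).1]
        · rintro ⟨s, x⟩ hp ⟨t, y⟩ hq heq
          rw [Finset.mem_coe, Finset.mem_sigma] at hp hq
          simp only at hp hq
          have hx' := hgm _ _ hp.2
          have hy' := hgm _ _ hq.2
          have hxs : x ∉ s := fun hh => hx'.2 x hh rfl
          have hyt : y ∉ t := fun hh => hy'.2 y hh rfl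
          simp only [Sigma.mk.injEq, heq_eq_eq] at heq
          obtain ⟨h1, h2⟩ := heq
          subst h2
          have : s = t := by
            rw [← Finset.erase_insert hxs, h1, Finset.erase_insert hyt]
          rw [this]
    _ = ∑ t ∈ RR V Q H z0 (i + 1), t.card := by rw [Finset.card_sigma]
    _ = (RR V Q H z0 (i + 1)).card * (i + 1) := by
        rw [Finset.sum_congr rfl (fun t ht => (mem_RR.1 ht).1), Finset.sum_const, smul_eq_mul]

/-- the core: a nonempty vertex set with many moves at each vertex is large -/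
theorem walk_core {V : Finset ℕ} {Q H Z ℓ : ℕ} (hQ : 1 ≤ Q) (mv : ℕ → Finset (ℕ × Bool))
    (nx : ℕ → ℕ × Bool → ℕ)
    (hmv : ∀ v ∈ V, ∀ x ∈ mv v, x.1.Prime ∧ x.1 ≤ Q ∧ nx v x ∈ V ∧ Mv H v x (nx v x))
    (hD : ∀ v ∈ V, 5 * ℓ ≤ (mv v).card) (hV : V.Nonempty) (hZ : ∀ v ∈ V, Z < v)
    (hbig : 2 * ℓ * Q ^ (2 * ℓ) * H < Z) : 3 ^ ℓ ≤ V.card := by
  classical
  obtain ⟨z0, hz0⟩ := hV
  have hgrow : ∀ i ≤ ℓ, 3 ^ i ≤ (RR V Q H z0 i).card := by
    intro i
    induction i with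
    | zero =>
      intro _
      rw [pow_zero, Nat.one_le_iff_ne_zero, Finset.card_ne_zero]
      refine ⟨∅, mem_RR.2 ⟨Finset.card_empty, z0, hz0, ?_, ?_, ?_⟩⟩
      · intro x hx; exact absurd hx (Finset.notMem_empty _)
      · intro x hx; exact absurd hx (Finset.notMem_empty _)
      · simp [av, bv]
    | succ i ih =>
      intro hi
      have h1 := ih (by omega)
      have h2 := RR_step (V := V) (Q := Q) (H := H) (z0 := z0) hQ mv nx hmv (5 * ℓ) hD i
      have h3 : 3 * (i + 1) ≤ 5 * ℓ - 2 * i := by omega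
      have h4 : (RR V Q H z0 i).card * (3 * (i + 1)) ≤ (RR V Q H z0 (i + 1)).card * (i + 1) :=
        (Nat.mul_le_mul_left _ h3).trans h2
      have h5 : (RR V Q H z0 i).card * 3 ≤ (RR V Q H z0 (i + 1)).card := by
        have : (RR V Q H z0 i).card * 3 * (i + 1) ≤ (RR V Q H z0 (i + 1)).card * (i + 1) := by
          rw [mul_assoc]; exact h4
        exact Nat.le_of_mul_le_mul_right this (by omega)
      rw [pow_succ]
      exact (Nat.mul_le_mul_right 3 h1).trans h5
  refine (hgrow ℓ le_rfl).trans ?_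
  have hch : ∀ s : Finset (ℕ × Bool), ∃ z, s ∈ RR V Q H z0 ℓ → OK V Q H z0 s z := by
    intro s
    by_cases h : s ∈ RR V Q H z0 ℓ
    · obtain ⟨_, z, hz⟩ := mem_RR.1 h
      exact ⟨z, fun _ => hz⟩
    · exact ⟨0, fun h' => absurd h' h⟩
  choose zz hzz using hch
  refine Finset.card_le_card_of_injOn zz (fun s hs => (hzz s hs).mem) ?_
  intro s hs t ht hst
  have h1 := hzz s hs
  have h2 := hzz t ht
  rw [← hst] at h2
  exact ok_inj hQ h1 h2 (mem_RR.1 hs).1 (mem_RR.1 ht).1 (hZ z0 hz0) hbig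

/-- every graph with more than `D |V|` edges has a nonempty part of minimum degree `> D` -/
theorem min_degree {ι : Type*} [DecidableEq ι] (E : Finset ι) (f g : ι → ℕ) (Λ : Finset ℕ)
    (hf : ∀ e ∈ E, f e ∈ Λ) (hg : ∀ e ∈ E, g e ∈ Λ) (D : ℕ) (hE : D * Λ.card < E.card) :
    ∃ V ⊆ Λ, V.Nonempty ∧ ∀ v ∈ V,
      D < (E.filter (fun e => f e ∈ V ∧ g e ∈ V ∧ (f e = v ∨ g e = v))).card := by
  classical
  set good : Finset (Finset ℕ) := Λ.powerset.filter
    (fun V => D * V.card < (E.filter (fun e => f e ∈ V ∧ g e ∈ V)).card) with hgood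
  have hne : good.Nonempty := by
    refine ⟨Λ, Finset.mem_filter.2 ⟨Finset.mem_powerset.2 le_rfl, ?_⟩⟩
    rwa [Finset.filter_true_of_mem (fun e he => ⟨hf e he, hg e he⟩)]
  obtain ⟨V, hV, hmin⟩ := Finset.exists_min_image good Finset.card hne
  rw [hgood, Finset.mem_filter, Finset.mem_powerset] at hV
  refine ⟨V, hV.1, ?_, ?_⟩
  · rw [Finset.nonempty_iff_ne_empty]
    rintro rfl
    have := hV.2
    simp at this
  · intro v hv
    by_contra hlt
    rw [not_lt] at hlt
    have h1 : V.erase v ∈ good := by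
      rw [hgood, Finset.mem_filter, Finset.mem_powerset]
      refine ⟨(Finset.erase_subset _ _).trans hV.1, ?_⟩
      have h2 : E.filter (fun e => f e ∈ V ∧ g e ∈ V)
          ⊆ E.filter (fun e => f e ∈ V.erase v ∧ g e ∈ V.erase v)
            ∪ E.filter (fun e => f e ∈ V ∧ g e ∈ V ∧ (f e = v ∨ g e = v)) := by
        intro e he
        rw [Finset.mem_filter] at he
        rw [Finset.mem_union, Finset.mem_filter, Finset.mem_filter]
        by_cases h : f e = v ∨ g e = v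
        · exact Or.inr ⟨he.1, he.2.1, he.2.2, h⟩
        · push Not at h
          exact Or.inl ⟨he.1, Finset.mem_erase.2 ⟨h.1, he.2.1⟩, Finset.mem_erase.2 ⟨h.2, he.2.2⟩⟩
      have h3 := (Finset.card_le_card h2).trans (Finset.card_union_le _ _)
      rw [Finset.card_erase_of_mem hv]
      have h4 : 1 ≤ V.card := Finset.card_pos.2 ⟨v, hv⟩
      have h5 : D * (V.card - 1) + D = D * V.card := by
        conv_rhs => rw [← Nat.sub_add_cancel h4]
        ring
      omega
    have h6 := hmin _ h1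
    rw [Finset.card_erase_of_mem hv] at h6
    have h4 : 1 ≤ V.card := Finset.card_pos.2 ⟨v, hv⟩
    omega

theorem walk_bound (QQ : Finset ℕ) (Q K H Z ℓ : ℕ) (hprime : ∀ q ∈ QQ, q.Prime)
    (hQ : ∀ q ∈ QQ, q ≤ Q) (Λ : Finset ℕ) (A : ℕ → Finset ℕ) (δ : ℕ → ℕ → ℕ → ℕ)
    (hδ : ∀ q ∈ QQ, ∀ u ∈ A q, ∀ k ≤ K,
      δ q u k ∈ Λ ∧ u < q ^ k * δ q u k ∧ q ^ k * δ q u k ≤ u + H)
    (hinj : ∀ q ∈ QQ, ∀ u ∈ A q, ∀ v ∈ A q, ∀ k ≤ K, ∀ j ≤ K,
      δ q u k = δ q v j → u = v ∧ k = j)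
    (hA : ∀ q ∈ QQ, ∀ u ∈ A q, Q ^ K * Z ≤ u) (hbig : 2 * ℓ * Q ^ (2 * ℓ) * H < Z)
    (hcard : Λ.card < 3 ^ ℓ) : ∑ q ∈ QQ, (A q).card * K ≤ 5 * ℓ * Λ.card := by
  classical
  by_contra hlt
  rw [not_le] at hlt
  set E : Finset (Σ _ : ℕ, ℕ × ℕ) := QQ.sigma (fun q => A q ×ˢ Finset.range K) with hE
  have hEc : E.card = ∑ q ∈ QQ, (A q).card * K := by
    rw [hE, Finset.card_sigma]
    exact Finset.sum_congr rfl (fun q _ => by rw [Finset.card_product, Finset.card_range])
  set f : (Σ _ : ℕ, ℕ × ℕ) → ℕ := fun e => δ e.1 e.2.1 (e.2.2 + 1) with hf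
  set g : (Σ _ : ℕ, ℕ × ℕ) → ℕ := fun e => δ e.1 e.2.1 e.2.2 with hg
  have hmem : ∀ e ∈ E, e.1 ∈ QQ ∧ e.2.1 ∈ A e.1 ∧ e.2.2 < K := by
    intro e he
    rw [hE, Finset.mem_sigma, Finset.mem_product, Finset.mem_range] at he
    exact he
  have hEne : E.Nonempty := by
    rw [← Finset.card_pos, hEc]; omega
  have hQ1 : 1 ≤ Q := by
    obtain ⟨e, he⟩ := hEne
    have := hmem e he
    exact (hprime _ this.1).one_le.trans (hQ _ this.1)
  obtain ⟨V, hVΛ, hVne, hVdeg⟩ := min_degree E f g Λ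
    (fun e he => by
      obtain ⟨h1, h2, h3⟩ := hmem e he
      exact (hδ _ h1 _ h2 _ (by omega)).1)
    (fun e he => by
      obtain ⟨h1, h2, h3⟩ := hmem e he
      exact (hδ _ h1 _ h2 _ (by omega)).1) (5 * ℓ) (by rw [hEc]; exact hlt)
  set inc : ℕ → Finset (Σ _ : ℕ, ℕ × ℕ) :=
    fun v => E.filter (fun e => f e ∈ V ∧ g e ∈ V ∧ (f e = v ∨ g e = v)) with hinc
  set lab : ℕ → (Σ _ : ℕ, ℕ × ℕ) → ℕ × Bool := fun v e => (e.1, decide (f e = v)) with hlab
  have hch : ∀ v : ℕ, ∀ x : ℕ × Bool, ∃ e : (Σ _ : ℕ, ℕ × ℕ),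
      x ∈ (inc v).image (lab v) → e ∈ inc v ∧ lab v e = x := by
    intro v x
    by_cases h : x ∈ (inc v).image (lab v)
    · obtain ⟨e, he, hx⟩ := Finset.mem_image.1 h
      exact ⟨e, fun _ => ⟨he, hx⟩⟩
    · exact ⟨⟨0, 0, 0⟩, fun h' => absurd h' h⟩
  choose ed hed using hch
  -- edges: the relation between the endpoints
  have hrel : ∀ e ∈ E, |((g e : ℕ) : ℤ) - e.1 * (f e : ℕ)| ≤ H := by
    intro e he
    obtain ⟨h1, h2, h3⟩ := hmem e he
    have a1 := hδ _ h1 _ h2 e.2.2 (by omega)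
    have a2 := hδ _ h1 _ h2 (e.2.2 + 1) (by omega)
    have hq1 : 1 ≤ e.1 ^ e.2.2 := Nat.one_le_pow _ _ (hprime _ h1).pos
    have hq1' : (1 : ℤ) ≤ (e.1 : ℤ) ^ e.2.2 := by exact_mod_cast hq1
    have b1 : (e.2.1 : ℤ) < (e.1 : ℤ) ^ e.2.2 * (g e : ℕ) := by exact_mod_cast a1.2.1
    have b2 : (e.1 : ℤ) ^ e.2.2 * (g e : ℕ) ≤ (e.2.1 : ℤ) + H := by exact_mod_cast a1.2.2
    have b3 : (e.2.1 : ℤ) < (e.1 : ℤ) ^ (e.2.2 + 1) * (f e : ℕ) := by exact_mod_cast a2.2.1
    have b4 : (e.1 : ℤ) ^ (e.2.2 + 1) * (f e : ℕ) ≤ (e.2.1 : ℤ) + H := by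
      exact_mod_cast a2.2.2
    have h5 : |(e.1 : ℤ) ^ e.2.2 * (((g e : ℕ) : ℤ) - e.1 * (f e : ℕ))| ≤ H := by
      rw [abs_le]
      rw [pow_succ] at b3 b4
      constructor <;> nlinarith
    rw [abs_mul, abs_of_nonneg (by positivity : (0 : ℤ) ≤ (e.1 : ℤ) ^ e.2.2)] at h5
    have h6 := abs_nonneg (((g e : ℕ) : ℤ) - e.1 * (f e : ℕ))
    nlinarith
  have hcore := walk_core (V := V) (Q := Q) (H := H) (Z := Z) (ℓ := ℓ) hQ1
    (fun v => (inc v).image (lab v))
    (fun v x => if x.2 = true then g (ed v x) else f (ed v x)) ?_ ?_ hVne ?_ hbig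
  · exact absurd (hcore.trans (Finset.card_le_card hVΛ)) (not_le.2 hcard)
  · intro v hv x hx
    obtain ⟨h1, h2⟩ := hed v x hx
    rw [hinc] at h1
    simp only at h1
    rw [Finset.mem_filter] at h1
    obtain ⟨h1, h3, h4, h5⟩ := h1
    have h6 := hmem _ h1
    have h7 := hrel _ h1
    rw [hlab] at h2
    simp only at h2
    have h8 : (ed v x).1 = x.1 := congrArg Prod.fst h2
    have h9 : decide (f (ed v x) = v) = x.2 := congrArg Prod.snd h2
    refine ⟨by rw [← h8]; exact hprime _ h6.1, by rw [← h8]; exact hQ _ h6.1, ?_, ?_⟩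
    · split_ifs
      · exact h4
      · exact h3
    · unfold Mv
      by_cases hx2 : x.2 = true
      · rw [hx2, decide_eq_true_eq] at h9
        rw [if_pos hx2]
        simp only [hx2, if_true]
        rw [h9, h8] at h7
        exact h7
      · rw [if_neg hx2]
        simp only [hx2, if_false]
        rw [Bool.not_eq_true] at hx2
        rw [hx2, decide_eq_false_iff_not] at h9
        have h10 := h5.resolve_left h9
        rw [h10, h8] at h7
        simpa using h7
  · intro v hv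
    rw [Finset.card_image_of_injOn]
    · exact (hVdeg v hv).le
    · intro e he e' he' hee
      rw [Finset.mem_coe, hinc] at he he'
      simp only at he he'
      rw [Finset.mem_filter] at he he'
      obtain ⟨h1, h2, h3, h4⟩ := he
      obtain ⟨h1', h2', h3', h4'⟩ := he'
      have m := hmem e h1
      have m' := hmem e' h1'
      rw [hlab] at hee
      simp only [Prod.mk.injEq] at hee
      obtain ⟨hq, hd⟩ := hee
      obtain ⟨q, u, k⟩ := e
      obtain ⟨q', u', k'⟩ := e'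
      simp only at hq m m'
      subst hq
      by_cases hfe : f ⟨q, u, k⟩ = v
      · have hfe' : f ⟨q, u', k'⟩ = v := by
          rw [decide_eq_true hfe] at hd
          exact of_decide_eq_true hd.symm
        have := hinj q m.1 u m.2.1 u' m'.2.1 (k + 1) (by omega) (k' + 1) (by omega)
          (by simp only [hf] at hfe hfe'; rw [hfe, hfe'])
        obtain ⟨r1, r2⟩ := this
        have r3 : k = k' := by omega
        rw [r1, r3]
      · have hfe' : ¬ f ⟨q, u', k'⟩ = v := by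
          rw [decide_eq_false hfe] at hd
          exact of_decide_eq_false hd.symm
        have g1 := h4.resolve_left hfe
        have g2 := h4'.resolve_left hfe'
        have := hinj q m.1 u m.2.1 u' m'.2.1 k (by omega) k' (by omega)
          (by simp only [hg] at g1 g2; rw [g1, g2])
        rw [this.1, this.2]
  · intro v hv
    have h1 : 0 < (inc v).card := by
      have := hVdeg v hv
      simp only [hinc]
      omega
    obtain ⟨e, he⟩ := Finset.card_pos.1 h1
    rw [hinc] at he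
    simp only at he
    rw [Finset.mem_filter] at he
    obtain ⟨h1, h2, h3, h4⟩ := he
    have m := hmem e h1
    have key : ∀ j ≤ K, Z < δ e.1 e.2.1 j := by
      intro j hj
      have a1 := (hδ _ m.1 _ m.2.1 j hj).2.1
      have a2 := hA _ m.1 _ m.2.1
      have a3 : e.1 ^ j * Z ≤ Q ^ K * Z := by
        refine Nat.mul_le_mul_right _ ?_
        exact (Nat.pow_le_pow_left (hQ _ m.1) j).trans (Nat.pow_le_pow_right hQ1 hj)
      exact lt_of_mul_lt_mul_left (a3.trans_lt (a2.trans_lt a1)) (Nat.zero_le _)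
    rcases h4 with h4 | h4
    · rw [← h4]; exact key _ (by omega)
    · rw [← h4]; exact key _ (by omega)

end Pool.Agent.H323R2.Walk
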